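import Pool.Agent.H86.Vws.Top

/-!
# VP and VP_ws are different for monotone circuits which only approximate

`net K n` is the tensor network polynomial of the complete binary tree of height `⌊log₂ n⌋` with edge labels from a set
with `n ^ 4` elements (if `n` is a power of two). Over every commutative semiring `K` it has circuits of size `64 n ^ 14`, for
example over the semiring of the operations minimum and sum (dynamic programming) and over the nonnegative real numbers
(monotone circuits). Over such semirings (sums and products of nonzero elements are not zero) weakly skew circuits
need `n ^ Ω(log n)` nodes even if they compute some other polynomial `g` which approximates `net K n` only up to a factor `r`: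

* every monomial of `g` is a multiple of a monomial of `net K n`,
* at least one `S`-th of the monomials `M` of `net K n` are such that `g` has a monomial with exactly the variables of
  `M`, of degree at most `r` times the degree of `M`.

Then the number `s` of the nodes satisfies `n ^ ⌊log₂ n⌋ ≤ (S s) ^ ((8 r) ^ (4 r + 6))`. This applies to all powers `g = f ^ j` with
`j ≤ r` of `f = net K n`, and to all weakly skew circuits for minimum and sum whose values are at least the minimal
weight of a labelling and at most `r` times as large.

Proof. A weakly skew circuit is a directed graph: the monomials are the sequences of readings on the paths from the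
source to the sink. Consider the path of a labelling, which reads most leaves of the tree at most `4 r` times. By walking
down the tree and halving sets of leaves one finds two disjoint sets of times, both unions of `O(r)` intervals, and
`Ω(log n)` pairs of leaves with disjoint connecting paths in the tree, such that the first leaf of each pair is read only in
the first set and the second leaf only in the second set. If the circuit is small, there are many labellings with the same
`O(r)` nodes at the ends of the intervals and the same pairs. Mixing the paths of two such labellings gives a
monomial of `g`; as it is a multiple of the monomial of a third labelling, the two labellings agree at some edge on the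
path between the leaves of each pair, and this is possible only for few labellings.
-/

set_option autoImplicit false

namespace Pool.Agent.Results.MP_f18ce0_lc.ApproximateCircuits

open Pool.Agent.H20VP Pool.Agent.H86.Vws

/-- (1) `net K n` is a p-family with circuits of polynomial size over every commutative semiring. (2) The lower bound for
weakly skew circuits which compute a polynomial that approximates `net K n` up to the factor `r`. (3) Powers of `net K n`.
(4) Weakly skew circuits for minimum and sum whose values are correct up to the factor `r`. -/
theorem result :
    (∀ (K : Type) [CommSemiring K] (n : ℕ), 1 ≤ n →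
      (net K n).totalDegree ≤ 2 * n ∧ (net K n).vars.card ≤ 2 * n ^ 13 ∧
      ∃ C : Circuit K (Vr (4 * Nat.log 2 n)), C.Computes (net K n) ∧ C.FanInTwo ∧ C.size ≤ 64 * n ^ 14) ∧
    (∀ (K : Type) [CommSemiring K] [Nontrivial K] [NoZeroDivisors K], (∀ a b : K, a + b = 0 → a = 0 ∧ b = 0) →
      ∀ (r S n : ℕ), 1 ≤ r → ∀ (C : Circuit K (Vr (4 * Nat.log 2 n))) (g : MvPolynomial (Vr (4 * Nat.log 2 n)) K),
        C.Computes g → C.WeaklySkew → Approx r S (net K n) g →
          n ^ Nat.log 2 n ≤ (S * C.size) ^ ((8 * r) ^ (4 * r + 6))) ∧
    (∀ (K : Type) [CommSemiring K] [Nontrivial K] [NoZeroDivisors K], (∀ a b : K, a + b = 0 → a = 0 ∧ b = 0) →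
      ∀ (j n : ℕ), 1 ≤ j → ∀ C : Circuit K (Vr (4 * Nat.log 2 n)), C.Computes (net K n ^ j) → C.WeaklySkew →
        n ^ Nat.log 2 n ≤ C.size ^ ((8 * j) ^ (4 * j + 6))) ∧
    (∀ (r n : ℕ), 1 ≤ r → ∀ (C : Circuit MinPlus (Vr (4 * Nat.log 2 n)))
        (g : MvPolynomial (Vr (4 * Nat.log 2 n)) MinPlus), C.Computes g → C.WeaklySkew →
        (∀ w : Vr (4 * Nat.log 2 n) → ℕ,
          cost (net MinPlus n) w ≤ cost g w ∧ cost g w ≤ r * cost (net MinPlus n) w) →
        n ^ Nat.log 2 n ≤ C.size ^ ((8 * r) ^ (4 * r + 6))) := by
  refine ⟨?_, ?_, ?_, ?_⟩
  · intro K _ n hn
    exact ⟨net_degree K n hn, net_vars K n hn, net_circuit K n hn⟩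
  · intro K _ _ _ h0 r S n hr C g hC hw hg
    exact lower_n h0 hr hC hw hg
  · intro K _ _ _ h0 j n hj C hC hw
    have h1 := lower_n h0 hj hC hw (approx_pow h0 (net K n) hj le_rfl)
    rwa [one_mul] at h1
  · intro r n hr C g hC hw hg
    have h1 := lower_n trop_add_zero hr hC hw (approx_of_cost g hg)
    rwa [one_mul] at h1

end Pool.Agent.Results.MP_f18ce0_lc.ApproximateCircuits
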