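import Pool.Agent.H5DY.Final

/-!
# VP and VP_ws for set-multilinear circuits whose index sets are intervals

The variables are pairs of a position (a natural number) and a letter. A circuit is interval set-multilinear if
every node has an index set, which is an interval of positions, such that variables have their own
position as the index set, summands have the same index set, and the index set of a product is the disjoint union of
the index sets of the factors.

The Dyck polynomials with two kinds of brackets have interval set-multilinear circuits with `27 n ^ 3` nodes, but
every weakly skew interval set-multilinear circuit for them has `n ^ (c log n)` nodes. The exponent is of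
the right order. The lower bound also holds for circuits with a bounded number of gates of other kinds on each path: it
is enough that there is a function on the nodes that does not decrease along the edges, is at most
`(log n) / 20` at the output, and drops at one of the two arguments of each multiplication gate which violates the
condition of weak skewness, unless this gate has an argument with at most `√n` positions.

The proof of the lower bound. Suppose that the circuit is small. We construct a closed walk with `2 n` steps
`± 1`, which is the sum of a fixed fractal walk, scaled up, and of a random one. The positions with the steps up and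
the positions with the steps down give a matrix of rank `2 ^ n` for the Dyck polynomial, and the node `t`
contributes a matrix of small rank to it if the walk is unbalanced on the index set of `t`, that is, if the values
of the walk at the two ends of the interval differ much. The fractal walk has the following property: if
all the nodes of a binary tree of intervals are balanced, then there is a path from the root of this tree with
`h = c log n` branching nodes such that both intervals at the branching node are long. If the gates there are weakly
skew, then the `h` long siblings of the path depend only on its last node, and they are disjoint intervals. Hence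
they all are balanced only with probability `n ^ (- c' log n)`, and for a suitable choice of the random walk this
does not happen for any node of the circuit.
-/

set_option autoImplicit false

namespace Pool.Agent.Results.MP_f18ce0_lc.IntervalSetMultilinear

open Pool.Agent.H20VP Pool.Agent.H5DY

/-- **Theorem.** Let `K` be a field and let `D_n = dyck K n 0` be the Dyck polynomials, a p-family.
(1) `D_n` has degree at most `2 n` and at most `8 n` variables.
(2) `D_n` is computed by an interval set-multilinear circuit with at most `27 n ^ 3` nodes. It is of rank
`log₂ n + 1`.
(3) Every weakly skew interval set-multilinear circuit for `D_n`, with additions of any in-degree, has at least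
`2 ^ ⌊(⌊log₂ n⌋ - 31) ^ 2 / 100⌋` nodes.
(4) More generally, every interval set-multilinear circuit of rank `r` for `D_n`, where multiplications with an argument
with at most `√n` positions are allowed without any condition, has at least
`2 ^ ⌊(⌊log₂ n⌋ - 31) (⌊log₂ n⌋ - 31 - 10 r) / 100⌋` nodes.
(5) So for no `c` there are such circuits of rank `(log₂ n) / 20` with at most `c n ^ c` nodes for all `n`.
(6) `D_n` is computed by a weakly skew interval set-multilinear circuit with at most
`(28 n ^ 3) ^ (⌊log₂ n⌋ + 3)` nodes. -/
theorem result (K : Type) [Field K] :
    (∀ n, (dyck K n 0).totalDegree ≤ 2 * n ∧ (dyck K n 0).vars.card ≤ 8 * n) ∧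
    (∀ n, 1 ≤ n → ∃ C : Circuit K (ℕ × Bool × Bool), C.Computes (dyck K n 0) ∧ C.FanInTwo ∧
      RankedSML C 0 (Nat.log 2 n + 1) ∧ C.size ≤ 27 * n ^ 3) ∧
    (∀ n, 1 ≤ n → ∀ C : Circuit K (ℕ × Bool × Bool), C.Computes (dyck K n 0) → C.WeaklySkew → IntervalSML C →
      2 ^ ((Nat.log 2 n - 31) ^ 2 / 100) ≤ C.size) ∧
    (∀ n, 1 ≤ n → ∀ (C : Circuit K (ℕ × Bool × Bool)) (r : ℕ), C.Computes (dyck K n 0) →
      RankedSML C (Nat.sqrt n) r →
      2 ^ ((Nat.log 2 n - 31) * (Nat.log 2 n - 31 - 10 * r) / 100) ≤ C.size) ∧
    (∀ c : ℕ, ∃ n, 1 ≤ n ∧ ∀ C : Circuit K (ℕ × Bool × Bool), C.Computes (dyck K n 0) →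
      RankedSML C (Nat.sqrt n) (Nat.log 2 n / 20) → c * n ^ c < C.size) ∧
    (∀ n, 1 ≤ n → ∃ C : Circuit K (ℕ × Bool × Bool), C.Computes (dyck K n 0) ∧ C.FanInTwo ∧ C.WeaklySkew ∧
      IntervalSML C ∧ C.size ≤ (28 * n ^ 3) ^ (Nat.log 2 n + 3)) := by
  have key : ∀ n, 1 ≤ n → ∀ (C : Circuit K (ℕ × Bool × Bool)) (r : ℕ), C.Computes (dyck K n 0) →
      RankedSML C (Nat.sqrt n) r →
      2 ^ ((Nat.log 2 n - 31) * (Nat.log 2 n - 31 - 10 * r) / 100) ≤ C.size := by
    rintro n hn C r hC ⟨I, ρ, h1, h2, h3⟩
    refine le_trans (Nat.pow_le_pow_right (by norm_num) (Nat.div_le_div_right (Nat.mul_le_mul_left _ ?_)))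
      (lower_log C n hn hC h1 h2)
    omega
  refine ⟨fun n => ⟨dyck_degree K n 0, dyck_vars_card K n⟩, fun n hn => small_ranked K hn, ?_, key, ?_,
    fun n hn => quasi_circuit K hn⟩
  · intro n hn C hC h1 h2
    have h3 := key n hn C 0 hC (rankedSML_of_weaklySkew h1 h2 _)
    rwa [mul_zero, Nat.sub_zero, ← pow_two] at h3
  · intro c
    obtain ⟨n, hn, h1⟩ := superpoly c
    refine ⟨n, hn, fun C hC hr => lt_of_lt_of_le (h1 (Nat.log 2 n / 20) (Nat.mul_div_le _ _)) (key n hn C _ hC hr)⟩

end Pool.Agent.Results.MP_f18ce0_lc.IntervalSetMultilinear
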