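import Pool.Agent.H20VP.Fam

/-!
# VP and VP_ws are different for circuits which are invariant under a group of translations

`fam K n` is the tensor network polynomial of the complete binary tree of height `h = ⌊log₂ n⌋` whose edges are labelled by
the elements of `F_2 ^ h`. The group of the translations of the labels of the edges (an elementary abelian 2-group) acts on
the variables. The theorem: this p-family is computed by invariant circuits of polynomial size (all gates have in-degree two),
but every invariant weakly skew circuit (even with addition gates of unbounded in-degree) has at least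
`(2 ^ h - 1) ^ ⌊(h + 1) / 2⌋` nodes, which is `n ^ Ω(log n)`.

Proof of the lower bound. Evaluate the circuit at `x_v(i, j, k) = χ_v(i) χ_{2v}(j) χ_{2v+1}(k) y_v`, where the `χ_u` are
nontrivial characters of `F_2 ^ h`. If a set `A` of vertices is such that the monomial `y ^ A` occurs at a node of the
circuit, then the product of the characters of the edges between `A` and its complement is trivial on the stabilizer of
this node. At most `s` characters of the group are trivial on the stabilizer of one of the `s` nodes. So, if
`s < (2 ^ h - 1) ^ (k + 1)`, the characters can be chosen such that only sets `A` with at most `k` boundary edges occur.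
In a weakly skew circuit an automorphism which fixes a node of the private sub-circuit of a factor fixes the other factor,
and this gives an order of all the vertices whose initial segments have at most `k` boundary edges. But the cutwidth of the
tree is at least `⌊(h + 1) / 2⌋`.
-/

set_option autoImplicit false

namespace Pool.Agent.Results.MP_f18ce0_lc.InvariantSeparation

open Pool.Agent.H20VP

theorem result (K : Type) [Field K] (h2 : (2 : K) ≠ 0) :
    -- `(fam K n)` is a p-family
    (∀ n, 1 ≤ n → (fam K n).totalDegree ≤ 2 * n ∧ (fam K n).vars.card ≤ 2 * n ^ 4) ∧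
    -- it has invariant circuits of polynomial size
    (∀ n, 1 ≤ n → ∃ C : Circuit K (Vr (Nat.log 2 n)),
      C.Computes (fam K n) ∧ C.FanInTwo ∧ Invariant (Nat.log 2 n) C ∧ C.size ≤ 16 * n ^ 5) ∧
    -- the lower bound for invariant weakly skew circuits
    (∀ n, 1 ≤ n → ∀ C : Circuit K (Vr (Nat.log 2 n)),
      C.Computes (fam K n) → C.WeaklySkew → Invariant (Nat.log 2 n) C →
        (2 ^ Nat.log 2 n - 1) ^ ((Nat.log 2 n + 1) / 2) ≤ C.size) ∧
    -- so there is no sequence of invariant weakly skew circuits of polynomial size
    ¬ ∃ c : ℕ, ∀ n, 1 ≤ n → ∃ C : Circuit K (Vr (Nat.log 2 n)),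
      C.Computes (fam K n) ∧ C.WeaklySkew ∧ Invariant (Nat.log 2 n) C ∧ C.size ≤ c * n ^ c := by
  have hlow : ∀ n, 1 ≤ n → ∀ C : Circuit K (Vr (Nat.log 2 n)),
      C.Computes (fam K n) → C.WeaklySkew → Invariant (Nat.log 2 n) C →
        (2 ^ Nat.log 2 n - 1) ^ ((Nat.log 2 n + 1) / 2) ≤ C.size :=
    fun n _ C hf hws hinv => lower h2 (Nat.log 2 n) C hinv hws hf
  refine ⟨fun n hn => ⟨fam_degree K hn, fam_vars K hn⟩, fun n hn => ?_, hlow, ?_⟩
  · exact ⟨circ K (Nat.log 2 n) (Nat.log 2 n), circ_computes K _ _, circ_fanInTwo K _ _, circ_invariant K _ _,
      fam_size K hn⟩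
  · rintro ⟨c, hc⟩
    obtain ⟨n, hn, hlt⟩ := superpoly c
    obtain ⟨C, hf, hws, hinv, hsize⟩ := hc n hn
    have := hlow n hn C hf hws hinv
    omega

end Pool.Agent.Results.MP_f18ce0_lc.InvariantSeparation
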