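import Pool.Agent.HS38.GT.Main
import Pool.Agent.HS38.GT.CUP3
import Pool.Agent.HS38.GT.LSK3

/-!
# VP and VP_ws for gauge symmetric computations of constraint networks

A constraint network (tensor network) is a set `H` of scopes, i.e. of finite sets of variables; all variables have the
domain `A` with `q` elements. Its generic partition function is
`Z = ∑_{a : V → A} ∏_{K ∈ H} X (restr K a)`, with an indeterminate for each assignment of each scope. The gauge symmetries
multiply the indeterminate of a partial assignment `β` with scope `K` by `∏_{i ∈ K} t K i (β i)`, where the product of the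
`t K i α` over all scopes containing `i` is one.

* Gauge symmetric circuits for `Z` have size `q ^ cw` up to a factor `2 |H|`, gauge symmetric weakly skew circuits and
  determinants have size `q ^ lw` up to a factor linear in the number of indeterminates. Here `cw` is the contraction width
  (the number of variables in the largest contraction of the best contraction tree, a form of treewidth), `lw` the linear
  width (a form of pathwidth). For the lower bounds it is enough that the polynomials at the nodes are eigenvectors of ONE
  generic gauge symmetry, or permuted up to scalars by one free gauge symmetry, or that the matrix is equivariant under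
  one generic gauge symmetry, and they hold for all polynomials which contain the monomials of `Z` (over every field, so
  also for limits). They also hold for finite groups of symmetries, for instance sign changes, with `q ^ lw` replaced by
  `(q - 1) ^ lw / |H|`.
* `lw ≤ cw (log₂ |H| + 1)`, so weakly skew circuits of quasi-polynomial size always exist if there are circuits of polynomial
  size, and this is sharp: for binary constraints on the binary tree blown up by cliques with `log n` vertices
  `cw ≤ 3 log n` and `lw ≥ (log n)² / 2`. So there is a p-family with gauge symmetric circuits of polynomial size all of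
  whose gauge symmetric weakly skew circuits and gauge equivariant determinantal representations have size
  `n ^ Ω(log n)`.

With helper11, helper12, helper22, helper23, helper24, helper41, helper45, helper53, helper55, helper61, helper69, helper70,
helper78, helper79, helper81, helper82, helper91, helper94, helper99; it uses the library of helper1 (equivariant
determinants, weakly skew circuits) and the circuits of helper20.
-/

set_option autoImplicit false

namespace Pool.Agent.Results.MP_f18ce0_lc.WidthClassification

open MvPolynomial Pool.Agent.Helper1x.EQ Pool.Agent.H20VP Pool.Agent.HS38.GT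

theorem result :
    -- every network
    (∀ (F V A : Type) [Field F] [Fintype V] [DecidableEq V] [Fintype A] [DecidableEq A] (H : Finset (Finset V)),
      2 ≤ H.card → (∀ i, ∃ K ∈ H, i ∈ K) → 2 ≤ Fintype.card A →
      GaugeSymmetries F A H ∧ CircuitBounds F A H ∧ WeaklySkewBounds F A H ∧ DeterminantBounds F A H ∧
        lwidth H ≤ cwidth H * (Nat.log 2 H.card + 1)) ∧
    -- sequences of networks
    (∀ (F A : Type) [Field F] [Fintype A] [DecidableEq A] (V : ℕ → Type) [∀ n, Fintype (V n)] [∀ n, DecidableEq (V n)]
      (H : ∀ n, Finset (Finset (V n))), 2 ≤ Fintype.card A → (∀ n, 2 ≤ (H n).card) → (∀ n, ∀ i, ∃ K ∈ H n, i ∈ K) →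
      (∀ n, CutGe (H n) 1) → (3 ≤ Fintype.card A ∨ ∀ n, CutGe (H n) 2) →
      (PolyBounded fun n => ∑ K ∈ H n, Fintype.card A ^ K.card) → Classified F A H) ∧
    -- the family: binary constraints on the binary tree blown up by cliques
    (∀ n : ℕ, 4 ≤ n → NetWidths n ∧
      ∀ (F A : Type) [Field F] [Fintype A] [DecidableEq A], 2 ≤ Fintype.card A → NetSeparation F A n) ∧
    (∀ c : ℕ, ∃ n : ℕ, 4 ≤ n ∧ c * n ^ c + c < 2 ^ (Nat.log 2 n * ((Nat.log 2 n + 1) / 2))) := by
  refine ⟨?_, ?_, ?_, t_TRN.2⟩
  · intro F V A _ _ _ _ _ H h2 hH hA
    have hne : H.Nonempty := Finset.card_pos.1 (by omega)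
    exact ⟨gaugeSymmetries, circuitBounds t_CUP3 h2 hH hA, weaklySkewBounds t_LSK3 hne hH hA,
      determinantBounds hne hH hA, t_LWC V H hne⟩
  · intro F A _ _ _ V _ _ H hA h2 hH h1 hq hN
    exact classification t_CUP3 t_LSK3 F A V H hA h2 hH h1 hq hN
  · intro n hn
    exact ⟨netWidths hn, fun F A _ _ _ hA => netSeparation t_CUP3 hA hn⟩

end Pool.Agent.Results.MP_f18ce0_lc.WidthClassification
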